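import Pool.Agent.T9h20.TE.Spec

/-!
# (A) Descartes for exponential sums along a monotone sequence
-/

set_option autoImplicit false

open Finset

namespace Pool.Agent.T9h6.TE

open Pool.Agent.T9h20.TE (chg SExp)

/-- An exponential sum. -/
noncomputable def ff {n : ℕ} (b d : Fin n → ℝ) (y : ℝ) : ℝ := ∑ i, b i * Real.exp (d i * y)

theorem alt (n : ℕ) : ∀ (b d : Fin n → ℝ) (m : ℕ) (x : ℕ → ℝ), (∀ i < m, x i < x (i + 1)) →
    (∀ i < m, ¬(0 ≤ ff b d (x i) ↔ 0 ≤ ff b d (x (i + 1)))) → m ≤ n - 1 := by
  induction n with
  | zero =>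
    intro b d m x hx h
    rcases Nat.eq_zero_or_pos m with rfl | hm
    · simp
    · exact absurd (by simp [ff]) (h 0 hm)
  | succ n ih =>
    intro b d m x hx h
    set e : Fin n → ℝ := fun i => d i.succ - d 0 with he
    set g : ℝ → ℝ := fun y => b 0 + ∑ i : Fin n, b i.succ * Real.exp (e i * y) with hg
    set b' : Fin n → ℝ := fun i => b i.succ * e i with hb'
    have hfg : ∀ y, ff b d y = Real.exp (d 0 * y) * g y := by
      intro y
      rw [hg, ff, Fin.sum_univ_succ, mul_add, Finset.mul_sum]
      congr 1
      · ring
      · refine Finset.sum_congr rfl fun i _ => ?_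
        have : d i.succ * y = d 0 * y + e i * y := by rw [he]; ring
        rw [this, Real.exp_add]
        ring
    have hsg : ∀ y, 0 ≤ ff b d y ↔ 0 ≤ g y := by
      intro y
      rw [hfg y]
      exact mul_nonneg_iff_of_pos_left (Real.exp_pos _)
    have hder : ∀ y, HasDerivAt g (ff b' e y) y := by
      intro y
      have h1 : ∀ i : Fin n, HasDerivAt (fun y => b i.succ * Real.exp (e i * y))
          (b' i * Real.exp (e i * y)) y := by
        intro i
        have h2 : HasDerivAt (fun y : ℝ => e i * y) (e i) y := by
          simpa using (hasDerivAt_id y).const_mul (e i)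
        have h3 := (h2.exp).const_mul (b i.succ)
        have h5 : b' i * Real.exp (e i * y) = b i.succ * (Real.exp (e i * y) * e i) := by
          rw [hb']
          ring
        rw [h5]
        exact h3
      have h4 := HasDerivAt.fun_sum (u := Finset.univ) fun i _ => h1 i
      exact h4.const_add (b 0)
    have hex : ∀ i, i < m → ∃ z, x i < z ∧ z < x (i + 1) ∧ (0 ≤ g (x i) → ff b' e z < 0) ∧
        (¬ 0 ≤ g (x i) → 0 < ff b' e z) := by
      intro i hi
      have hc : ContinuousOn g (Set.Icc (x i) (x (i + 1))) :=
        fun y _ => (hder y).continuousAt.continuousWithinAt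
      obtain ⟨z, ⟨hz1, hz2⟩, hz3⟩ := exists_hasDerivAt_eq_slope g (ff b' e) (hx i hi) hc
        (fun y _ => hder y)
      have hd : 0 < x (i + 1) - x i := sub_pos.2 (hx i hi)
      have hne := h i hi
      rw [hsg, hsg] at hne
      refine ⟨z, hz1, hz2, fun h0 => ?_, fun h0 => ?_⟩
      · have h1 : ¬ 0 ≤ g (x (i + 1)) := fun h1 => hne ⟨fun _ => h1, fun _ => h0⟩
        rw [hz3]
        exact div_neg_of_neg_of_pos (by linarith [not_le.1 h1]) hd
      · have h1 : 0 ≤ g (x (i + 1)) := by
          by_contra h1
          exact hne ⟨fun h2 => absurd h2 h0, fun h2 => absurd h2 h1⟩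
        rw [hz3]
        exact div_pos (by linarith [not_le.1 h0]) hd
    choose! z hz1 hz2 hz3 hz4 using hex
    have key : ∀ i < m, (0 ≤ ff b' e (z i) ↔ ¬ 0 ≤ g (x i)) := by
      intro i hi
      constructor
      · intro h1 h2
        exact absurd h1 (not_le.2 (hz3 i hi h2))
      · intro h1
        exact (hz4 i hi h1).le
    rcases Nat.eq_zero_or_pos n with rfl | hn
    · rcases Nat.eq_zero_or_pos m with rfl | hm
      · simp
      · exfalso
        by_cases h0 : 0 ≤ g (x 0)
        · have := hz3 0 hm h0
          simp [ff] at this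
        · have := hz4 0 hm h0
          simp [ff] at this
    · have h1 := ih b' e (m - 1) z
        (fun i hi => (hz2 i (by omega)).trans (hz1 (i + 1) (by omega)))
        (fun i hi => by
          rw [key i (by omega), key (i + 1) (by omega)]
          have := h i (by omega)
          rw [hsg, hsg] at this
          tauto)
      omega

/-- A subsequence along which the truth value changes at each step. -/
theorem sub (p : ℕ → Prop) (L : ℕ) : ∃ l : ℕ → ℕ, (∀ i < chg p L, l i < l (i + 1)) ∧
    (∀ i < chg p L, ¬(p (l i) ↔ p (l (i + 1)))) ∧ l (chg p L) ≤ L ∧ (p (l (chg p L)) ↔ p L) := by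
  classical
  induction L with
  | zero => exact ⟨fun _ => 0, by simp [chg], by simp [chg], le_rfl, Iff.rfl⟩
  | succ L ih =>
    obtain ⟨l, h1, h2, h3, h4⟩ := ih
    by_cases hp : p L ↔ p (L + 1)
    · have hc : chg p (L + 1) = chg p L := by
        unfold chg
        rw [Finset.range_add_one, Finset.filter_insert, if_neg (by simpa using hp)]
      rw [hc]
      exact ⟨l, h1, h2, h3.trans (Nat.le_succ _), h4.trans hp⟩
    · have hc : chg p (L + 1) = chg p L + 1 := by
        unfold chg
        rw [Finset.range_add_one, Finset.filter_insert, if_pos hp, Finset.card_insert_of_notMem]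
        simp
      rw [hc]
      refine ⟨fun i => if i ≤ chg p L then l i else L + 1, ?_, ?_, ?_, ?_⟩
      · intro i hi
        rcases Nat.lt_succ_iff_lt_or_eq.1 hi with h | h
        · simp only [h.le, Nat.succ_le_iff.2 h, if_true]
          exact h1 i h
        · subst h
          simp only [le_refl, if_true, Nat.not_succ_le_self, if_false]
          omega
      · intro i hi
        rcases Nat.lt_succ_iff_lt_or_eq.1 hi with h | h
        · simp only [h.le, Nat.succ_le_iff.2 h, if_true]
          exact h2 i h
        · subst h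
          simp only [le_refl, if_true, Nat.not_succ_le_self, if_false]
          rw [h4]
          exact hp
      · simp
      · simp

theorem sExp : SExp := by
  intro n L b d y hy
  obtain ⟨l, h1, h2, -, -⟩ := sub (fun l => 0 ≤ ∑ i, b i * Real.exp (d i * y l)) L
  refine alt n b d _ (fun i => y (l i)) (fun i hi => ?_) h2
  refine lt_of_le_of_ne (hy (h1 i hi).le) fun he => h2 i hi ?_
  rw [he]

end Pool.Agent.T9h6.TE
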